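import Pool.Agent.Lib.MP_b0cc33_lc.Space

set_option autoImplicit false

namespace Pool.Agent.Results.MP_b0cc33_lc.Embedding

/-- Turing functionals: programs for the Kleene schemes with one extra instruction `oracle`. -/
inductive Prog : Type
  | zero : Prog
  | succ : Prog
  | left : Prog
  | right : Prog
  | oracle : Prog
  | pair : Prog → Prog → Prog
  | comp : Prog → Prog → Prog
  | prec : Prog → Prog → Prog
  | rfind : Prog → Prog

/-- The function computed by a program with oracle `p`; apart from `oracle`, the clauses are those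
of `Nat.Partrec.Code.eval`. -/
def Prog.eval (p : ℕ → ℕ) : Prog → ℕ →. ℕ
  | .zero => pure 0
  | .succ => Nat.succ
  | .left => ↑fun n : ℕ => n.unpair.1
  | .right => ↑fun n : ℕ => n.unpair.2
  | .oracle => ↑p
  | .pair cf cg => fun n => Nat.pair <$> cf.eval p n <*> cg.eval p n
  | .comp cf cg => fun n => cg.eval p n >>= cf.eval p
  | .prec cf cg =>
    Nat.unpaired fun a n =>
      n.rec (cf.eval p a) fun y IH => do
        let i ← IH
        cg.eval p (Nat.pair a (Nat.pair y i))
  | .rfind cf =>
    Nat.unpaired fun a m =>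
      (Nat.rfind fun n => (fun m => m = 0) <$> cf.eval p (Nat.pair a (n + m))).map (· + m)

/-- The sequence `s` is dense and the reals `dist (s i) (s j)` are computable uniformly in `i, j`:
`a / (b + 1)` is a computable rational approximation within `2 ^ (-k)`. -/
def IsComputablePresentation {X : Type} [MetricSpace X] (s : ℕ → X) : Prop :=
  DenseRange s ∧ ∃ a b : ℕ × ℕ × ℕ → ℕ, Computable a ∧ Computable b ∧
    ∀ i j k : ℕ, |dist (s i) (s j) - (a (i, j, k) : ℝ) / (b (i, j, k) + 1)| ≤ 1 / 2 ^ k

/-- `p` is a name of the point `x`. -/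
def IsName {X : Type} [MetricSpace X] (s : ℕ → X) (p : ℕ → ℕ) (x : X) : Prop :=
  ∀ k : ℕ, dist (s (p k)) x ≤ 1 / 2 ^ k

/-- One Turing functional transforms every name of every point `x` into a name of `f x`. -/
def IsComputableMap {X : Type} [MetricSpace X] (s : ℕ → X) (f : X → X) : Prop :=
  ∃ c : Prog, ∀ (x : X) (p : ℕ → ℕ), IsName s p x →
    ∃ q : ℕ → ℕ, (∀ k, c.eval p k = Part.some (q k)) ∧ IsName s q (f x)

/-- The value of a word in the generators `gen i` (letter `(i, true)`) and their inverses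
(letter `(i, false)`). -/
def wordVal {G : Type*} [Group G] {n : ℕ} (gen : Fin n → G) (w : List (Fin n × Bool)) : G :=
  (w.map fun a => cond a.2 (gen a.1) (gen a.1)⁻¹).prod

/-- The program without oracle calls given by a code. -/
def ofCode : Nat.Partrec.Code → Prog
  | .zero => .zero
  | .succ => .succ
  | .left => .left
  | .right => .right
  | .pair cf cg => .pair (ofCode cf) (ofCode cg)
  | .comp cf cg => .comp (ofCode cf) (ofCode cg)
  | .prec cf cg => .prec (ofCode cf) (ofCode cg)
  | .rfind' cf => .rfind (ofCode cf)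

theorem eval_ofCode (p : ℕ → ℕ) (c : Nat.Partrec.Code) : (ofCode c).eval p = c.eval := by
  induction c with
  | zero => rfl
  | succ => rfl
  | left => rfl
  | right => rfl
  | pair cf cg hf hg => simp only [ofCode, Prog.eval, Nat.Partrec.Code.eval, hf, hg]
  | comp cf cg hf hg => simp only [ofCode, Prog.eval, Nat.Partrec.Code.eval, hf, hg]
  | prec cf cg hf hg => simp only [ofCode, Prog.eval, Nat.Partrec.Code.eval, hf, hg]
  | rfind' cf hf => simp only [ofCode, Prog.eval, Nat.Partrec.Code.eval, hf]

/-- Every finitely generated group whose word problem is co-c.e. embeds in the group of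
computable isometries of a computable metric space. -/
theorem result (G : Type*) [Group G] (n : ℕ) (gen : Fin n → G)
    (hgen : Subgroup.closure (Set.range gen) = ⊤)
    (hwp : REPred fun w : List (Fin n × Bool) => wordVal gen w ≠ 1) :
    ∃ (X : Type) (_ : MetricSpace X) (_ : CompleteSpace X) (s : ℕ → X),
      IsComputablePresentation s ∧
      ∃ φ : G →* (X ≃ᵢ X), Function.Injective φ ∧ ∀ g : G, IsComputableMap s (φ g) := by
  have hsurj : Function.Surjective (FreeGroup.lift gen) := by
    rw [← MonoidHom.range_eq_top, FreeGroup.range_lift_eq_closure, hgen]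
  have hre : REPred fun w : List (Fin n × Bool) => FreeGroup.mk w ∉ (FreeGroup.lift gen).ker := by
    refine hwp.of_eq fun w => ?_
    rw [MonoidHom.mem_ker, FreeGroup.lift_mk]
    rfl
  obtain ⟨X, iX, cX, s, hs, ⟨q, hq, hq'⟩, φ, hker, hφ⟩ :=
    Lib.MP_b0cc33_lc.exists_space n (FreeGroup.lift gen).ker inferInstance hre
  have hpow : Primrec₂ (fun a b : ℕ => a ^ b) := Primrec₂.unpaired'.1 Nat.Primrec.pow
  let ψ : G →* (X ≃ᵢ X) :=
    (FreeGroup.lift gen).liftOfSurjective hsurj ⟨φ, by rw [hker]⟩
  have hψ : ∀ w, ψ (FreeGroup.lift gen w) = φ w := fun w =>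
    MonoidHom.liftOfRightInverse_comp_apply _ _ _ _ w
  refine ⟨X, iX, cX, s, ⟨hs, q, fun t => 2 ^ t.2.2 - 1, hq, ?_, fun i j k => ?_⟩, ψ, ?_, fun g => ?_⟩
  · exact (Primrec.nat_sub.comp (hpow.comp (Primrec.const 2) (Primrec.snd.comp Primrec.snd))
      (Primrec.const 1)).to_comp
  · have h1 : ((2 ^ k - 1 : ℕ) : ℝ) + 1 = 2 ^ k := by
      rw [Nat.cast_sub Nat.one_le_two_pow]
      simp
    simpa only [h1] using hq' i j k
  · rw [injective_iff_map_eq_one]
    intro g hg
    obtain ⟨w, rfl⟩ := hsurj g
    rw [hψ, ← MonoidHom.mem_ker, hker] at hg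
    exact hg
  · obtain ⟨w, rfl⟩ := hsurj g
    obtain ⟨h, hh, hh'⟩ := hφ w
    obtain ⟨c, hc⟩ := Nat.Partrec.Code.exists_code.1 (Partrec.nat_iff.1 hh.partrec)
    refine ⟨.comp (ofCode c) .oracle, fun x p hp => ⟨fun k => h (p k), fun k => ?_, fun k => ?_⟩⟩
    · simp [Prog.eval, eval_ofCode, hc]
    · rw [hψ, ← hh', IsometryEquiv.dist_eq]
      exact hp k

end Pool.Agent.Results.MP_b0cc33_lc.Embedding
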